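import Pool.Agent.X176.FJ.Quo

/-!
# Quotients by locally finite normal subgroups, diagonal products and limits of finite groups

`C` is any class of groups with the closure properties `ClosedE C`, all of which are known for the
class of the groups that satisfy the K-theoretic Farrell–Jones conjecture with coefficients in additive
categories and finite wreath products. The class is not known to be closed under quotients.

1. Let `N` be a normal subgroup of `Γ` which is the union of a directed family of normal subgroups `M j`
  with virtual complements (subgroups which meet `M j` trivially and generate with it a subgroup of finite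
  index). If `Γ` is in `C`, then so is `Γ/N`.
2. Let `Γ` be residually finite and let `N` be a directed union of finite normal subgroups of `Γ`. Then `Γ`
  is in `C` if and only if `Γ/N` is.
3. Let `Γ` be a subgroup of a product of groups `F i` and let `N` be the subgroup of its elements of finite
  support. If all `F i` and `Γ/N` are in `C`, then so is `Γ`. Conversely, if `Γ` is in `C`, then so is `Γ/N`,
  if for all `i` the group of the elements of `Γ` with support in `{i}` has finite index in the projection
  of `Γ` to `F i`.
4. If a group `G` with generators `t x` is the limit of finite groups with generators `s i x` (a word is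
  trivial in `G` if and only if it is trivial in all but finitely many of the finite groups), then `G` is
  in `C` if and only if the diagonal product of the finite groups is, that is the subgroup of the product
  generated by the elements `(s i x)_i`.

The proof of 1.: the quotient by `M j` contains a copy of the virtual complement as a subgroup of finite
index, and `Γ/N` is the directed colimit of these quotients. In 2. and 3. the finite normal subgroups and
the elements with support in a finite set have virtual complements.
-/

set_option autoImplicit false

namespace Pool.Agent.Results.MP_f7db47_al.DiagonalProducts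

open Pool.Agent.Y110.FJ Pool.Agent.X176.FJ

/-- `N` is the union of a directed family of normal subgroups with virtual complements -/
def UnionOfVirtCompl {Γ : Type} [Group Γ] (N : Subgroup Γ) : Prop :=
  ∃ (J : Type) (_ : Nonempty J) (M : J → Subgroup Γ), (∀ j, (M j).Normal) ∧
    (∀ i j, ∃ k, M i ≤ M k ∧ M j ≤ M k) ∧ (∀ x, x ∈ N ↔ ∃ j, x ∈ M j) ∧ ∀ j, VirtCompl (M j)

/-- the quotient of a subgroup of a product by the elements of finite support -/
abbrev Reduced {I : Type} {F : I → Type} [∀ i, Group (F i)] (Γ : Subgroup (∀ i, F i)) : Type :=
  Γ ⧸ (FinSupp F).subgroupOf Γ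

open Classical in
/-- for all `i` the elements of `Γ` with support in `{i}` form a subgroup of finite index of the
projection of `Γ` to `F i` -/
def FinIndexCoords {I : Type} {F : I → Type} [∀ i, Group (F i)] (Γ : Subgroup (∀ i, F i)) : Prop :=
  ∀ i, (Coord Γ i).relIndex (Proj Γ i) ≠ 0

/-- **Quotients, diagonal products and limits of finite groups.** -/
theorem result (C : ∀ (G : Type) [Group G], Prop) (hC : ClosedE C) :
    (∀ (Γ : Type) [Group Γ] (N : Subgroup Γ) [N.Normal],
      (UnionOfVirtCompl N → C Γ → C (Γ ⧸ N)) ∧
      (ResFin Γ → FinNormal N → (C Γ ↔ C (Γ ⧸ N)))) ∧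
    (∀ (I : Type) (F : I → Type) [∀ i, Group (F i)] (Γ : Subgroup (∀ i, F i)),
      ((∀ i, C (F i)) → C (Reduced Γ) → C Γ) ∧ (FinIndexCoords Γ → C Γ → C (Reduced Γ))) ∧
    (∀ (I : Type) (F : I → Type) [∀ i, Group (F i)] (X G : Type) [Group G]
      (s : ∀ i, X → F i) (t : X → G), (∀ i, Finite (F i)) → IsLimit s t →
      (C G ↔ C (DiagProd s))) := by
  classical
  refine ⟨fun Γ _ N _ => ⟨?_, fun h hN => ⟨rf_quo hC.base h N hN, rf_ext hC N hN⟩⟩,
    fun I F _ Γ => ⟨fun hF => c_sub_prod hC hF Γ, fun hfi hΓ => ?_⟩,
    fun I F _ X G _ s t hF hlim => ?_⟩
  · rintro ⟨J, _, M, hn, hdir, hN, hM⟩ hΓ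
    exact c_quo hC.base hΓ J M (hn := hn) hdir N hN hM
  · exact c_prod_quo hC.base Γ hΓ hfi
  · obtain ⟨e⟩ := diag_iso s t hlim
    constructor
    · intro hG
      exact c_sub_prod hC (fun i => c_finite hC.base (F i)) _
        (hC.base.of_injective _ _ e.symm.toMonoidHom e.symm.injective hG)
    · intro hD
      exact hC.base.of_injective _ _ e.toMonoidHom e.injective
        (c_prod_quo hC.base _ hD (fun i => Subgroup.FiniteIndex.index_ne_zero))

end Pool.Agent.Results.MP_f7db47_al.DiagonalProducts
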