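import Pool.Agent.X201.FJ.HypAb

/-!
# Kernels with transfinite normal series with abelian or locally finite factors

`C` is any class of groups with the closure properties `ClosedE C` which contains all groups with an
abelian normal subgroup and cyclic quotient. All of this is known for the class of the groups that
satisfy the K-theoretic Farrell–Jones conjecture with coefficients and finite wreath products.

`AbMod M M'` says that `M' / M` is abelian, and `LfMod M M'` that `M' / M` is locally finite.
-/

set_option autoImplicit false

namespace Pool.Agent.Results.MP_f7db47_al.HyperabelianKernels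

open Pool.Agent.Y110.FJ Pool.Agent.X201.FJ

/-- Let `C` be a class of groups with the closure properties `ClosedE C` which contains all
abelian-by-cyclic groups. Let `N` be a normal subgroup of `G` such that `G / N` is in `C`. Suppose that
every normal subgroup `M` of `G` with `M < N` is properly contained in a normal subgroup `M'` of `G` with
`M' ≤ N` such that `M' / M` is abelian, or `M' / M` is locally finite, or the subgroup of `G / M`
generated by `M' / M` and `x` is in `C` for every `x`. Then `G` is in `C`. -/
theorem result (C : ∀ (G : Type) [Group G], Prop) (hC : ClosedE C)
    (hab : ∀ (H : Type) [Group H] (A : Subgroup H) [A.Normal], (∀ a ∈ A, ∀ b ∈ A, a * b = b * a) →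
      IsCyclic (H ⧸ A) → C H)
    (G : Type) [Group G] (N : Subgroup G) [N.Normal] (hQ : C (G ⧸ N))
    (h : ∀ (M : Subgroup G) [M.Normal], M < N → ∃ M' : Subgroup G, M'.Normal ∧ M < M' ∧ M' ≤ N ∧
      (AbMod M M' ∨ LfMod M M' ∨ ∀ x : G,
        C ((M' ⊔ Subgroup.zpowers x : Subgroup G).map (QuotientGroup.mk' M)))) : C G :=
  hyperab hC hab N hQ h

end Pool.Agent.Results.MP_f7db47_al.HyperabelianKernels
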