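import Pool.Agent.X265.Inf.Main

/-!
# Groups generated by bounded automata over infinite alphabets

`C` is any class of groups with the closure properties `ClosedE C`, all of which are known for the
class of the groups that satisfy the K- and L-theoretic Farrell–Jones conjecture with coefficients
and finite wreath products.

`X` is an alphabet, finite or infinite, and `P` a group of permutations of `X` which is in `C`. The
automorphisms of the rooted tree `X^*` are the permutations of the words which preserve the length
and the prefixes (`IsTree`). `VertexIn P g`: all vertex permutations of `g` are in `P`.
`Sections g` is the set of the sections of `g` at all vertices; if it is finite, `g` is given by a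
finite automaton (with an infinite alphabet). `IsBdd g`: there are finitely many rays and a `k` such
that the section of `g` at every vertex off these rays is finitary of depth at most `k`.

Examples are the iterated monodromy groups of postsingularly finite entire functions: they are
generated by such automata, and `P` is the monodromy group of the function, for instance `ℤ` acting
on itself for the exponential family and the infinite dihedral group for the cosine family.

Outline of the proof. Let `F` be the group of the finitary automorphisms with vertex permutations in
`P` (and finitely many sections below every vertex); it is in `C` because the group of the functions
`X → H` with finite range extended by `P` is in `C` if `H` is. The automorphisms which are directed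
along a ray `ρ`, with off-ray sections in `F` and finitely many different steps, form a groupoid on
the set of the rays, and the isotropy groups are in `C`. Let `Γ` be the free product of `F` and the
universal group of this groupoid. The recursion lifts to `Γ` and brings every element of `Γ` into
`F` or the groupoid at some level, where the action on the tree is faithful. So the group generated
by all finitary and directed automorphisms is a directed colimit of subgroups of iterated wreath
products of `Γ` and `P`.
-/

set_option autoImplicit false

namespace Pool.Agent.Results.MP_f7db47_al.InfiniteAlphabets

open Pool.Agent.Y110.FJ Pool.Agent.X265.Inf
open Pool.Agent.Y462.SS (IsTree Sections IsBdd)

/-- Let `C` be a class of groups with the closure properties `ClosedE C`, `X` a finite or infinite set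
and `P` in `C` a group of permutations of `X`. Every group `G` of automorphisms of the tree `X^*`
which is generated by bounded finite-state automorphisms with vertex permutations in `P` is in
`C`. -/
theorem result (C : ∀ (G : Type) [Group G], Prop) (hC : ClosedE C) (X : Type)
    (P : Subgroup (Equiv.Perm X)) (hP : C P) (G : Type) [Group G]
    (f : G →* Equiv.Perm (List X)) (hf : Function.Injective f) (S : Set G)
    (hS : Subgroup.closure S = ⊤) (hT : ∀ s ∈ S, IsTree (f s)) (hV : ∀ s ∈ S, VertexIn P (f s))
    (hF : ∀ s ∈ S, (Sections (f s)).Finite) (hB : ∀ s ∈ S, IsBdd (f s)) : C G :=
  bounded hC hP G f hf S hS hT hV hF hB

end Pool.Agent.Results.MP_f7db47_al.InfiniteAlphabets
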