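import Pool.Agent.X263.PL.Conj
import Pool.Agent.W644.HK.Char0Main
import Pool.Agent.W644.HK.CharP

/-!
# The Dennis traces `K_n(K[Γ]) → HH_n(K[Γ])`, all `n ≥ 1`, for piecewise linear groups

Let `Γ` be a group of increasing piecewise affine bijections, with finitely many pieces, of a
linearly ordered field `F`; for example Thompson's group `F`, or any group of piecewise linear
orientation preserving homeomorphisms of a compact interval or of the real line. Such a group is
torsion-free. If the assembly map for `Γ` and a regular ring `K` is surjective in degree `n + 1`, then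
the Dennis trace of every element of `K_{n+1}(K[Γ])` lies in the component of the unit element of
`HH_{n+1}(K[Γ]) = ⨁_{[g]} H_{n+1}(C_Γ(g); K)` up to the contributions of `K_n(K)` and `Γ`.

Let `z` be any cycle of degree `n + 1 ≥ 1` in the bar complex (coefficients `ℤ`) of the group of
invertible matrices over `K[Γ]`; every class of `K_{n+1}(K[Γ])` gives such a `z` by the Hurewicz map
`K_{n+1}(K[Γ]) → H_{n+1}(GL(K[Γ]); ℤ)`. We show:

(1) If `K` is a field of characteristic zero, then the Dennis trace of `z` is killed by all
Hochschild cocycles with values in a finitely generated subring of `K` which vanish on the tuples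
with product `1`.
(2) If `k` is a reduced commutative ring of characteristic `p`, then the Dennis trace of `z` is killed
by all Hochschild cocycles with values in a `k`-module which vanish on the tuples whose product is `1`
or has no fixed point in `F`. For the groups of piecewise linear homeomorphisms of a compact interval
all elements have fixed points (they are extended by the identity).
-/

set_option autoImplicit false

namespace Pool.Agent.Results.MP_f7db47_al.PiecewiseLinearHigherTraces

open Pool.Agent.W644.HK Pool.Agent.X263.PL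

universe t u v w x

/-- `f : F → F` is piecewise affine with finitely many pieces: there is a finite set `S` such that
`f` is affine on every closed interval which has no point of `S` in its interior. -/
def PiecewiseAffine {F : Type t} [Field F] [LinearOrder F] (f : F → F) : Prop :=
  ∃ S : Finset F, ∀ a b : F, a ≤ b → (∀ s ∈ S, ¬ (a < s ∧ s < b)) →
    ∃ m c : F, ∀ x, a ≤ x → x ≤ b → f x = m * x + c

theorem result {F : Type t} [Field F] [LinearOrder F] [IsStrictOrderedRing F]
    {Γ : Type v} [Group Γ] (φ : Γ →* (F ≃o F)) (hφ : Function.Injective φ)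
    (hPL : ∀ g, PiecewiseAffine (φ g)) :
    (∀ (K : Type u) [Field K] [CharZero K] (r : Type w) [Fintype r] [DecidableEq r] (n : ℕ)
      (z : (Fin (n + 1) → (Matrix r r (MonoidAlgebra K Γ))ˣ) →₀ ℤ), barBoundary z = 0 →
      ∀ (s : Finset K) (f : (Fin (n + 2) → Γ) → K), (∀ g, f g ∈ Algebra.adjoin ℤ (s : Set K)) →
      IsHochschildCocycle f → (∀ g : Fin (n + 2) → Γ, (List.ofFn g).prod = 1 → f g = 0) →
      dennis f z = 0) ∧
    (∀ (p : ℕ) [Fact p.Prime] (k : Type u) [CommRing k] [CharP k p] [IsReduced k]
      (r : Type w) [Fintype r] [DecidableEq r] (n : ℕ)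
      (z : (Fin (n + 1) → (Matrix r r (MonoidAlgebra k Γ))ˣ) →₀ ℤ), barBoundary z = 0 →
      ∀ (V : Type x) [AddCommGroup V] [Module k V] (f : (Fin (n + 2) → Γ) → V),
      IsHochschildCocycle f →
      (∀ g : Fin (n + 2) → Γ, ((List.ofFn g).prod = 1 ∨ ∀ y, φ (List.ofFn g).prod y ≠ y) →
        f g = 0) →
      dennis f z = 0) := by
  have hPA : ∀ g, PA (φ g) := hPL
  constructor
  · intro K _ _ r _ _ n z hz s f hs hf hone
    apply dennis_char0 z hz ?_ s f hs hf
    · intro g m hm hg
      exact hone g (tors_free hφ hPA _ m hm hg)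
    · intro H hH
      have : Group.FG H := (Group.fg_iff_subgroup_fg H).2 hH
      rw [Set.infinite_iff_exists_gt]
      intro N
      obtain ⟨hinf⟩ : Nonempty ({p : ℕ | p.Prime ∧ Pool.Agent.H23R2.GoodPrime H p}.Infinite) := by
        have hfin := finite_bad (φ := φ.comp H.subtype) (fun g => hPA g)
          (hφ.comp H.subtype_injective)
        refine ⟨(Nat.infinite_setOfPred_prime.sdiff hfin).mono ?_⟩
        rintro p ⟨hp, hgood⟩
        refine ⟨hp, ?_⟩
        by_contra hcon
        exact hgood ⟨hp, hcon⟩
      obtain ⟨p, ⟨hp, hgood⟩, hNp⟩ := hinf.exists_gt N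
      refine ⟨p, ⟨hp, ?_, ?_⟩, hNp⟩
      · intro x hx y hy hxy
        exact congrArg Subtype.val (hgood.inj ⟨x, hx⟩ ⟨y, hy⟩ (Subtype.ext hxy))
      · intro g hg hinf' j hj c hc heq
        have hg1 : (⟨g, hg⟩ : H) ≠ 1 := by
          intro h0
          apply hinf' 1 one_pos
          rw [pow_one]
          exact congrArg Subtype.val h0
        obtain ⟨k, hk⟩ := hgood.div ⟨g, hg⟩ hg1
        exact not_conj_of_div (⟨g, hg⟩ : H) (⟨c, hc⟩ : H) hj hk (Subtype.ext heq)
  · intro p _ k _ _ _ r _ _ n z hz V _ _ f hf hvan
    refine dennis_vanish (p := p) (fun a b h => roots hφ hPA a b p (Nat.Prime.pos Fact.out) h)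
      z hz f hf ?_
    intro g x j hj hx
    apply hvan
    by_contra hcon
    push Not at hcon
    obtain ⟨h1, h2⟩ := hcon
    have hp2 : 2 ≤ p := (Fact.out : p.Prime).two_le
    exact not_conj_pow hPA hφ h1 h2 (hp2.trans (Nat.le_self_pow (by omega) p))
      (isConj_iff.2 ⟨x, hx⟩)

end Pool.Agent.Results.MP_f7db47_al.PiecewiseLinearHigherTraces
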